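import Pool.Agent.TH712.SM.Union

/-!
# The query complexity of testing submodularity is exponential for some ranges
-/

set_option autoImplicit false

namespace Pool.Agent.Results.MP_30d570_lc.ExponentialRanges

open Pool.Agent.TH712.SM

/-- the query complexity: the least cost of a tester with parameter `ε` for submodularity of
functions `{0,1}^n → R` -/
noncomputable def qc (R : Set ℝ) (n : ℕ) (ε : ℝ) : ℕ := sInf {q | IsTester n R ε q}

theorem qc_spec (R : Set ℝ) (n : ℕ) (ε : ℝ) (hε : 0 < ε) : IsTester n R ε (qc R n ε) := by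
  unfold qc
  exact Nat.sInf_mem (s := {q | IsTester n R ε q}) ⟨2 ^ n, trivial_tester R ε hε⟩

/-- There is one set `R` of natural numbers such that every tester for submodularity of functions
`{0,1}^n → R` is exponential already for constant `ε`, and the same holds for a finite part `R₀` of
it, a multiple of a set of natural numbers at most `2^(7n)`, and for every range in between. In
particular no polynomial in `n/ε`, even one depending on the range, bounds the number of queries. -/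
theorem result : ∃ R : Set ℝ, (∀ r ∈ R, ∃ k : ℕ, r = k) ∧
    (∀ n : ℕ, 12 ≤ n → ∃ R₀ : Set ℝ, R₀ ⊆ R ∧
      (∃ c : ℕ, 0 < c ∧ ∀ r ∈ R₀, ∃ k : ℕ, k ≤ 2 ^ (7 * n) ∧ r = c * k) ∧
      ∀ R' : Set ℝ, R₀ ⊆ R' → R' ⊆ R → ∀ ε : ℝ, 0 < ε → ε ≤ 1 / 64 →
        2 ^ n ≤ (12 * (qc R' n ε + 1)) ^ 4 ∧ qc R' n ε ≤ 2 ^ n) ∧
    (∀ p : Polynomial ℝ, ∃ (n : ℕ) (ε : ℝ), 0 < ε ∧ ε < 1 ∧
      ∀ q : ℕ, IsTester n R ε q → p.eval (n / ε) < q) := by
  obtain ⟨R, hR, hl⟩ := exp_lower_one
  refine ⟨R, hR, ?_, ?_⟩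
  · intro n hn
    obtain ⟨R₀, h1, h2, h3⟩ := hl n hn
    refine ⟨R₀, h1, h2, ?_⟩
    intro R' h4 h5 ε hε hε'
    exact ⟨h3 R' h4 h5 ε _ hε' (qc_spec R' n ε hε), Nat.sInf_le (trivial_tester R' ε hε)⟩
  · intro p
    obtain ⟨n, hn, hp⟩ := poly_lt_exp p
    obtain ⟨R₀, h1, _, h3⟩ := hl n hn
    refine ⟨n, 1 / 64, by norm_num, by norm_num, ?_⟩
    intro q hq
    exact hp q (h3 R h1 (Set.Subset.refl R) (1 / 64) q le_rfl hq)

end Pool.Agent.Results.MP_30d570_lc.ExponentialRanges
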